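import Pool.Agent.X55.HZ.Stm

set_option autoImplicit false

namespace Pool.Agent.X224.HZ

open Finset Matrix

variable {ι κ : Type} [Fintype ι] [DecidableEq ι] [Fintype κ] [DecidableEq κ]

theorem det_bd {r : ℕ} {M : Matrix (Fin r) (Fin r) ℤ} (h : ∀ i j, |M i j| ≤ 1) :
    |M.det| ≤ (r.factorial : ℤ) := by
  have h1 := Matrix.det_le (A := M) (abv := AbsoluteValue.abs) (x := 1) (fun i j => h i j)
  simpa using h1

theorem exists_max (A : Matrix ι κ ℤ) : ∃ r : ℕ, (∃ (R : Fin r → ι) (T : Fin r → κ),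
    (A.submatrix R T).det ≠ 0) ∧ ∀ (R' : Fin (r + 1) → ι) (T' : Fin (r + 1) → κ),
    (A.submatrix R' T').det = 0 := by
  by_contra hcon
  push Not at hcon
  have h : ∀ r : ℕ, ∃ (R : Fin r → ι) (T : Fin r → κ), (A.submatrix R T).det ≠ 0 := by
    intro r
    induction r with
    | zero => exact ⟨fun i => i.elim0, fun i => i.elim0, by simp⟩
    | succ r ih => exact hcon r ih
  obtain ⟨R, T, hD⟩ := h (Fintype.card κ + 1)
  have hT : Function.Injective T := by
    intro s t hst
    by_contra hne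
    exact hD (Matrix.det_zero_of_column_eq hne fun i => by simp [hst])
  have := Fintype.card_le_of_injective T hT
  simp at this

theorem ker_vec (A : Matrix ι κ ℤ) {r : ℕ} (R : Fin r → ι) (T : Fin r → κ)
    (hmax : ∀ (R' : Fin (r + 1) → ι) (T' : Fin (r + 1) → κ), (A.submatrix R' T').det = 0) (j : κ)
    (hj : ∀ s, T s ≠ j) : ∃ z : κ → ℤ, A.mulVec z = 0 ∧ z j = (A.submatrix R T).det ∧
      ∀ l, (∀ s, T s ≠ l) → l ≠ j → z l = 0 := by
  obtain ⟨T', hT'⟩ : ∃ T' : Fin (r + 1) → κ, T' = Fin.snoc (α := fun _ => κ) T j := ⟨_, rfl⟩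
  have hl : T' (Fin.last r) = j := by rw [hT']; simp
  have hc : ∀ s : Fin r, T' s.castSucc = T s := fun s => by rw [hT']; simp
  obtain ⟨e, he⟩ : ∃ e : Fin (r + 1) → ℤ, ∀ s, e s = (-1) ^ (r + (s : ℕ)) *
      (A.submatrix R (T' ∘ s.succAbove)).det := ⟨_, fun s => rfl⟩
  have hel : e (Fin.last r) = (A.submatrix R T).det := by
    rw [he]
    have h1 : T' ∘ (Fin.last r).succAbove = T := by
      funext s
      simp [Fin.succAbove_last, hc]
    rw [h1, Fin.val_last, Even.neg_one_pow ⟨r, rfl⟩, one_mul]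
  refine ⟨fun l => ∑ s, if T' s = l then e s else 0, ?_, ?_, ?_⟩
  · funext i
    have h1 : (A.submatrix (Fin.snoc (α := fun _ => ι) R i) T').det = 0 := hmax _ _
    rw [Matrix.det_succ_row _ (Fin.last r)] at h1
    have h2 : A.mulVec (fun l => ∑ s, if T' s = l then e s else 0) i = ∑ s, e s * A i (T' s) := by
      simp only [Matrix.mulVec, dotProduct, Finset.mul_sum]
      rw [Finset.sum_comm]
      refine Finset.sum_congr rfl fun s _ => ?_
      rw [Finset.sum_eq_single (T' s)]
      · simp [mul_comm]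
      · intro b _ hb
        simp [Ne.symm hb]
      · intro h
        exact absurd (Finset.mem_univ _) h
    rw [h2, Pi.zero_apply, ← h1]
    refine Finset.sum_congr rfl fun s _ => ?_
    rw [he]
    have h3 : ((A.submatrix (Fin.snoc (α := fun _ => ι) R i) T').submatrix
        (Fin.last r).succAbove s.succAbove) = A.submatrix R (T' ∘ s.succAbove) := by
      ext a b
      simp [Fin.succAbove_last]
    rw [h3]
    simp only [Matrix.submatrix_apply, Fin.snoc_last, Fin.val_last]
    ring
  · show (∑ s, if T' s = j then e s else 0) = _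
    rw [Fin.sum_univ_castSucc, hl, if_pos rfl, hel]
    rw [Finset.sum_eq_zero, zero_add]
    intro s _
    rw [hc, if_neg (hj s)]
  · intro l hl2 hlj
    show (∑ s, if T' s = l then e s else 0) = _
    rw [Fin.sum_univ_castSucc, hl, if_neg (Ne.symm hlj), add_zero]
    refine Finset.sum_eq_zero fun s _ => ?_
    rw [hc, if_neg (hl2 s)]

theorem t_SML : Pool.Agent.X55.HZ.S_SML := by
  intro ι κ _ _ _ _ A b hA hb ⟨x, hx⟩
  classical
  obtain ⟨r, ⟨R, T, hD⟩, hmax⟩ := exists_max A
  have hT : Function.Injective T := by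
    intro s t hst
    by_contra hne
    exact hD (Matrix.det_zero_of_column_eq hne fun i => by simp [hst])
  have hr : r ≤ Fintype.card κ := by simpa using Fintype.card_le_of_injective T hT
  obtain ⟨D, hDD⟩ : ∃ D, D = (A.submatrix R T).det := ⟨_, rfl⟩
  have hD0 : D ≠ 0 := hDD ▸ hD
  have hDb : |D| ≤ ((Fintype.card κ).factorial : ℤ) := by
    rw [hDD]
    refine (det_bd fun i j => hA _ _).trans ?_
    exact_mod_cast Nat.factorial_le hr
  have hDpos : 1 ≤ |D| := Int.one_le_abs hD0
  choose! z hz1 hz2 hz3 using fun (j : κ) (hj : ∀ s, T s ≠ j) => ker_vec A R T hmax j hj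
  obtain ⟨N, hN⟩ : ∃ N : Finset κ, N = univ.filter fun j => ∀ s, T s ≠ j := ⟨_, rfl⟩
  have memN : ∀ j, j ∈ N ↔ ∀ s, T s ≠ j := fun j => by rw [hN]; simp
  obtain ⟨y, hy⟩ : ∃ y : κ → ℤ, y = x - ∑ j ∈ N, (x j / D) • z j := ⟨_, rfl⟩
  have hAy : A.mulVec y = b := by
    have h1 : A.mulVecLin y = A.mulVecLin x := by
      rw [hy, map_sub, map_sum]
      rw [Finset.sum_eq_zero, sub_zero]
      intro j hj
      rw [map_smul, Matrix.mulVecLin_apply, hz1 j ((memN j).1 hj), smul_zero]
    rw [Matrix.mulVecLin_apply, Matrix.mulVecLin_apply] at h1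
    rw [h1, hx]
  have hyN : ∀ l ∈ N, |y l| ≤ |D| := by
    intro l hl
    have h1 : y l = x l % D := by
      rw [hy]
      simp only [Pi.sub_apply, Finset.sum_apply, Pi.smul_apply, smul_eq_mul]
      rw [Finset.sum_eq_single l]
      · rw [hz2 l ((memN l).1 hl), ← hDD, Int.emod_def]
        ring
      · intro j hj hjl
        rw [hz3 j ((memN j).1 hj) l ((memN l).1 hl) (Ne.symm hjl), mul_zero]
      · intro h
        exact absurd hl h
    rw [h1, abs_of_nonneg (Int.emod_nonneg _ hD0)]
    exact (Int.emod_lt_abs _ hD0).le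
  have hcard : ((N.card : ℕ) : ℤ) ≤ (Fintype.card κ : ℤ) := by
    exact_mod_cast Finset.card_le_univ N
  -- the system for the columns in `T`
  have hsys : ∀ i, (A.submatrix R T).mulVec (fun s => y (T s)) i =
      b (R i) - ∑ j ∈ N, A (R i) j * y j := by
    intro i
    have h1 : A.mulVec y (R i) = b (R i) := by rw [hAy]
    have h2 : A.mulVec y (R i) = ∑ j, A (R i) j * y j := rfl
    have h3 : ∑ j, A (R i) j * y j = ∑ j ∈ Nᶜ, A (R i) j * y j + ∑ j ∈ N, A (R i) j * y j :=
      (Finset.sum_compl_add_sum N _).symm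
    have h4 : Nᶜ = univ.image T := by
      ext j
      rw [Finset.mem_compl, memN, Finset.mem_image]
      push Not
      constructor
      · rintro ⟨s, hs⟩
        exact ⟨s, Finset.mem_univ _, hs⟩
      · rintro ⟨s, -, hs⟩
        exact ⟨s, hs⟩
    have h5 : ∑ j ∈ Nᶜ, A (R i) j * y j = ∑ s, A (R i) (T s) * y (T s) := by
      rw [h4, Finset.sum_image fun a _ b _ h => hT h]
    show ∑ s, A (R i) (T s) * y (T s) = _
    rw [← h5, ← h1, h2, h3]
    ring
  have hv : ∀ i, |b (R i) - ∑ j ∈ N, A (R i) j * y j| ≤ ((Fintype.card κ : ℤ) + 1) * |D| := by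
    intro i
    have h1 : |∑ j ∈ N, A (R i) j * y j| ≤ (Fintype.card κ : ℤ) * |D| := by
      calc |∑ j ∈ N, A (R i) j * y j| ≤ ∑ j ∈ N, |A (R i) j * y j| :=
            Finset.abs_sum_le_sum_abs _ _
        _ ≤ ∑ _j ∈ N, |D| := Finset.sum_le_sum fun j hj => by
            rw [abs_mul]
            calc |A (R i) j| * |y j| ≤ 1 * |D| :=
                  mul_le_mul (hA _ _) (hyN j hj) (abs_nonneg _) zero_le_one
              _ = |D| := one_mul _
        _ = (N.card : ℤ) * |D| := by rw [Finset.sum_const, nsmul_eq_mul]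
        _ ≤ (Fintype.card κ : ℤ) * |D| := mul_le_mul_of_nonneg_right hcard (abs_nonneg _)
    calc |b (R i) - ∑ j ∈ N, A (R i) j * y j| ≤ |b (R i)| + |∑ j ∈ N, A (R i) j * y j| :=
          abs_sub _ _
      _ ≤ |D| + (Fintype.card κ : ℤ) * |D| := add_le_add ((hb _).trans hDpos) h1
      _ = ((Fintype.card κ : ℤ) + 1) * |D| := by ring
  have hyT : ∀ s, |y (T s)| ≤ (r : ℤ) * (r.factorial : ℤ) * ((Fintype.card κ : ℤ) + 1) := by
    intro s
    have h1 : (A.submatrix R T).adjugate.mulVec ((A.submatrix R T).mulVec fun s => y (T s)) =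
        D • (fun s => y (T s)) := by
      rw [Matrix.mulVec_mulVec, Matrix.adjugate_mul, ← hDD, Matrix.smul_mulVec, Matrix.one_mulVec]
    have h2 : D * y (T s) = ∑ i, (A.submatrix R T).adjugate s i *
        (b (R i) - ∑ j ∈ N, A (R i) j * y j) := by
      have h3 := congrFun h1 s
      simp only [Pi.smul_apply, smul_eq_mul] at h3
      rw [← h3]
      change (∑ i : Fin r, (A.submatrix R T).adjugate s i *
        (A.submatrix R T).mulVec (fun s => y (T s)) i) = _
      exact Finset.sum_congr rfl fun i _ => by rw [hsys i]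
    have hadj : ∀ i, |(A.submatrix R T).adjugate s i| ≤ (r.factorial : ℤ) := by
      intro i
      rw [Matrix.adjugate_apply]
      refine det_bd fun a c => ?_
      rw [Matrix.updateRow_apply]
      split_ifs with h
      · by_cases hcs : c = s
        · subst hcs; simp
        · simp [hcs]
      · exact hA _ _
    have h4 : |D| * |y (T s)| ≤ |D| * ((r : ℤ) * (r.factorial : ℤ) *
        ((Fintype.card κ : ℤ) + 1)) := by
      rw [← abs_mul, h2]
      calc |∑ i, (A.submatrix R T).adjugate s i * (b (R i) - ∑ j ∈ N, A (R i) j * y j)|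
          ≤ ∑ i, |(A.submatrix R T).adjugate s i * (b (R i) - ∑ j ∈ N, A (R i) j * y j)| :=
            Finset.abs_sum_le_sum_abs _ _
        _ ≤ ∑ _i : Fin r, (r.factorial : ℤ) * (((Fintype.card κ : ℤ) + 1) * |D|) :=
            Finset.sum_le_sum fun i _ => by
              rw [abs_mul]
              exact mul_le_mul (hadj i) (hv i) (abs_nonneg _) (by positivity)
        _ = |D| * ((r : ℤ) * (r.factorial : ℤ) * ((Fintype.card κ : ℤ) + 1)) := by
            rw [Finset.sum_const, Finset.card_univ, Fintype.card_fin, nsmul_eq_mul]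
            ring
    exact le_of_mul_le_mul_left h4 (by omega)
  refine ⟨y, hAy, fun j => ?_⟩
  push_cast
  have hk1 : (1 : ℤ) ≤ ((Fintype.card κ).factorial : ℤ) := by
    exact_mod_cast Nat.factorial_pos _
  by_cases hj : ∀ s, T s ≠ j
  · have h1 := (hyN j ((memN j).2 hj)).trans hDb
    refine h1.trans ?_
    have hk0 : (0 : ℤ) ≤ (Fintype.card κ : ℤ) := Int.natCast_nonneg _
    nlinarith [mul_nonneg hk0 (sq_nonneg ((Fintype.card κ).factorial : ℤ))]
  · push Not at hj
    obtain ⟨s, rfl⟩ := hj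
    refine (hyT s).trans ?_
    have h1 : (r : ℤ) ≤ ((Fintype.card κ).factorial : ℤ) := by
      exact_mod_cast hr.trans (Nat.self_le_factorial _)
    have h2 : (r.factorial : ℤ) ≤ ((Fintype.card κ).factorial : ℤ) := by
      exact_mod_cast Nat.factorial_le hr
    have h3 : (r : ℤ) * (r.factorial : ℤ) ≤ ((Fintype.card κ).factorial : ℤ) ^ 2 := by
      rw [sq]
      exact mul_le_mul h1 h2 (by positivity) (by positivity)
    calc (r : ℤ) * (r.factorial : ℤ) * ((Fintype.card κ : ℤ) + 1)
        ≤ ((Fintype.card κ).factorial : ℤ) ^ 2 * ((Fintype.card κ : ℤ) + 1) :=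
          mul_le_mul_of_nonneg_right h3 (by positivity)
      _ = _ := by ring

end Pool.Agent.X224.HZ
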